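import Mathlib

set_option autoImplicit false

/-!
# Polynomial sequences in filtered groups (cubes of all dimensions at once)
-/

namespace Pool.Agent.V5helper15.LE

open Subgroup
open scoped commutatorElement

/-! ### commutators and closures -/

/-- the three subgroups lemma modulo a normal subgroup -/
lemma three_le {G : Type*} [Group G] (N H₁ H₂ H₃ : Subgroup G) [N.Normal]
    (h1 : ⁅⁅H₂, H₃⁆, H₁⁆ ≤ N) (h2 : ⁅⁅H₃, H₁⁆, H₂⁆ ≤ N) : ⁅⁅H₁, H₂⁆, H₃⁆ ≤ N := by
  have key : ∀ A B C : Subgroup G, ⁅⁅A, B⁆, C⁆ ≤ N ↔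
      ⁅⁅A.map (QuotientGroup.mk' N), B.map (QuotientGroup.mk' N)⁆, C.map (QuotientGroup.mk' N)⁆ = ⊥ := by
    intro A B C
    rw [← map_commutator, ← map_commutator, Subgroup.map_eq_bot_iff, QuotientGroup.ker_mk']
  rw [key] at h1 h2 ⊢
  exact commutator_commutator_eq_bot_of_rotate h1 h2

/-- the lower central series is a filtration -/
lemma lcs_comm {G : Type*} [Group G] (b : ℕ) : ∀ a : ℕ,
    ⁅(⊤ : Subgroup G).lowerCentralSeries a, (⊤ : Subgroup G).lowerCentralSeries b⁆ ≤
      (⊤ : Subgroup G).lowerCentralSeries (a + b + 1) := by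
  induction b with
  | zero => intro a; exact le_rfl
  | succ b ih =>
    intro a
    rw [commutator_comm]
    have hc : (⊤ : Subgroup G).lowerCentralSeries (b + 1) =
        ⁅(⊤ : Subgroup G).lowerCentralSeries b, (⊤ : Subgroup G)⁆ := rfl
    rw [hc]
    apply three_le
    · rw [commutator_comm ⊤]
      have := ih (a + 1)
      have e : a + 1 + b + 1 = a + (b + 1) + 1 := by ring
      rw [e] at this
      exact this
    · have h2 := commutator_mono (ih a) (le_refl (⊤ : Subgroup G))
      have e : a + (b + 1) + 1 = a + b + 1 + 1 := by ring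
      rw [e]
      exact h2

lemma comm_closure {M : Type*} [Group M] (s U : Set M) (K : Subgroup M)
    (hn : ∀ x ∈ closure s, ∀ y ∈ K, x * y * x⁻¹ ∈ K) (h : ∀ x ∈ s, ∀ u ∈ U, ⁅x, u⁆ ∈ K) :
    ∀ x ∈ closure s, ∀ u ∈ U, ⁅x, u⁆ ∈ K := by
  intro x hx
  induction hx using closure_induction with
  | mem x hx => exact h x hx
  | one =>
    intro u _
    rw [commutatorElement_one_left]
    exact K.one_mem
  | mul x y hx hy ihx ihy =>
    intro u hu
    have e : ⁅x * y, u⁆ = x * ⁅y, u⁆ * x⁻¹ * ⁅x, u⁆ := by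
      simp only [commutatorElement_def]; group
    rw [e]
    exact K.mul_mem (hn x hx _ (ihy u hu)) (ihx u hu)
  | inv x hx ihx =>
    intro u hu
    have e : ⁅x⁻¹, u⁆ = x⁻¹ * ⁅x, u⁆⁻¹ * x⁻¹⁻¹ := by
      simp only [commutatorElement_def]; group
    rw [e]
    exact hn _ (inv_mem hx) _ (K.inv_mem (ihx u hu))

/-- commutators of two closures -/
lemma comm_closure₂ {M : Type*} [Group M] (s U : Set M) (K : Subgroup M)
    (hs : ∀ x ∈ closure s, ∀ y ∈ K, x * y * x⁻¹ ∈ K) (hU : ∀ x ∈ closure U, ∀ y ∈ K, x * y * x⁻¹ ∈ K)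
    (h : ∀ x ∈ s, ∀ u ∈ U, ⁅x, u⁆ ∈ K) : ∀ x ∈ closure s, ∀ u ∈ closure U, ⁅x, u⁆ ∈ K := by
  have h1 := comm_closure s U K hs h
  have h2 := comm_closure U (closure s : Set M) K hU (fun u hu x hx => by
    rw [← commutatorElement_inv]
    exact K.inv_mem (h1 x hx u hu))
  intro x hx u hu
  rw [← commutatorElement_inv]
  exact K.inv_mem (h2 u hu x hx)

/-- conjugations by the elements of a closure -/
lemma conj_closure {M : Type*} [Group M] (s : Set M) (K : Subgroup M)
    (h : ∀ x ∈ s, ∀ y ∈ K, x * y * x⁻¹ ∈ K ∧ x⁻¹ * y * x ∈ K) :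
    ∀ x ∈ closure s, ∀ y ∈ K, x * y * x⁻¹ ∈ K := by
  have h1 : closure s ≤ normalizer (K : Set M) := by
    rw [closure_le]
    intro x hx
    rw [SetLike.mem_coe, mem_normalizer_iff]
    intro y
    constructor
    · intro hy; exact (h x hx y hy).1
    · intro hy
      have := (h x hx _ hy).2
      have e : x⁻¹ * (x * y * x⁻¹) * x = y := by group
      rwa [e] at this
  intro x hx y hy
  exact (mem_normalizer_iff.1 (h1 hx) y).1 hy

/-! ### cubes -/

variable {G : Type*} [Group G]

/-- a filtration -/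
structure Filt (F : ℕ → Subgroup G) : Prop where
  anti : Antitone F
  comm : ∀ i j, ⁅F i, F j⁆ ≤ F (i + j)

/-- the function which is `g` at the sets containing `S` -/
def face (S : Finset ℕ) (g : G) : Finset ℕ → G := fun ω => if S ⊆ ω then g else 1

/-- the group of cubes -/
def Q (F : ℕ → Subgroup G) (s : ℕ) : Subgroup (Finset ℕ → G) :=
  closure {c | ∃ S : Finset ℕ, ∃ g ∈ F (S.card + s), c = face S g}

lemma face_mem {F : ℕ → Subgroup G} {s : ℕ} {S : Finset ℕ} {g : G} (h : g ∈ F (S.card + s)) :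
    face S g ∈ Q F s := subset_closure ⟨S, g, h, rfl⟩

lemma face_comm (S T : Finset ℕ) (g h : G) : ⁅face S g, face T h⁆ = face (S ∪ T) ⁅g, h⁆ := by
  funext ω
  by_cases h1 : S ⊆ ω <;> by_cases h2 : T ⊆ ω <;>
    simp [commutatorElement_def, face, Finset.union_subset_iff, h1, h2]

lemma face_comm_mem {F : ℕ → Subgroup G} (hF : Filt F) {s t : ℕ} {S T : Finset ℕ} {g h : G}
    (hg : g ∈ F (S.card + s)) (hh : h ∈ F (T.card + t)) : ⁅face S g, face T h⁆ ∈ Q F (s + t) := by
  rw [face_comm]
  apply face_mem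
  apply hF.anti _ (hF.comm _ _ (commutator_mem_commutator hg hh))
  have := Finset.card_union_le S T
  omega

lemma Q_conj {F : ℕ → Subgroup G} (hF : Filt F) (t : ℕ) :
    ∀ x ∈ Q F 0, ∀ y ∈ Q F t, x * y * x⁻¹ ∈ Q F t := by
  have key : ∀ (S : Finset ℕ) (g : G), g ∈ F (S.card + 0) → ∀ y ∈ Q F t,
      face S g * y * (face S g)⁻¹ ∈ Q F t := by
    intro S g hg y hy
    induction hy using closure_induction with
    | mem y hy =>
      obtain ⟨T, h, hh, rfl⟩ := hy
      have e : face S g * face T h * (face S g)⁻¹ = ⁅face S g, face T h⁆ * face T h := by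
        simp only [commutatorElement_def]; group
      rw [e]
      have h1 := face_comm_mem hF hg hh
      rw [zero_add] at h1
      exact mul_mem h1 (face_mem hh)
    | one => simp
    | mul y z _ _ hy hz =>
      have e : face S g * (y * z) * (face S g)⁻¹ =
          (face S g * y * (face S g)⁻¹) * (face S g * z * (face S g)⁻¹) := by group
      rw [e]
      exact mul_mem hy hz
    | inv y _ hy =>
      have e : face S g * y⁻¹ * (face S g)⁻¹ = (face S g * y * (face S g)⁻¹)⁻¹ := by group
      rw [e]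
      exact inv_mem hy
  apply conj_closure
  rintro x ⟨S, g, hg, rfl⟩ y hy
  refine ⟨key S g hg y hy, ?_⟩
  have e : (face S g)⁻¹ = face S g⁻¹ := by
    funext ω
    by_cases h : S ⊆ ω <;> simp [face, h]
  have h1 := key S g⁻¹ (inv_mem hg) y hy
  rw [← e, inv_inv] at h1
  exact h1

lemma Q_anti {F : ℕ → Subgroup G} (hF : Filt F) {s t : ℕ} (h : s ≤ t) : Q F t ≤ Q F s := by
  apply Subgroup.closure_mono
  rintro c ⟨S, g, hg, rfl⟩
  exact ⟨S, g, hF.anti (by omega) hg, rfl⟩

lemma Q_comm {F : ℕ → Subgroup G} (hF : Filt F) (s t : ℕ) :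
    ∀ x ∈ Q F s, ∀ y ∈ Q F t, ⁅x, y⁆ ∈ Q F (s + t) := by
  apply comm_closure₂
  · intro x hx y hy
    exact Q_conj hF _ x (Q_anti hF (Nat.zero_le s) hx) y hy
  · intro x hx y hy
    exact Q_conj hF _ x (Q_anti hF (Nat.zero_le t) hx) y hy
  · rintro x ⟨S, g, hg, rfl⟩ y ⟨T, h, hh, rfl⟩
    exact face_comm_mem hF hg hh

/-- the cube of a sequence -/
def cube (u : ℤ → G) (n : ℤ) (h : ℕ →₀ ℤ) : Finset ℕ → G := fun ω => u (n + ∑ i ∈ ω, h i)

/-- the polynomial sequences -/
def Poly (F : ℕ → Subgroup G) (s : ℕ) : Subgroup (ℤ → G) where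
  carrier := {u | ∀ n h, cube u n h ∈ Q F s}
  mul_mem' := fun {u v} hu hv n h => (Q F s).mul_mem (hu n h) (hv n h)
  one_mem' := fun _ _ => (Q F s).one_mem
  inv_mem' := fun {u} hu n h => (Q F s).inv_mem (hu n h)

lemma mem_Poly {F : ℕ → Subgroup G} {s : ℕ} {u : ℤ → G} :
    u ∈ Poly F s ↔ ∀ n h, cube u n h ∈ Q F s := Iff.rfl

lemma Poly_anti {F : ℕ → Subgroup G} (hF : Filt F) {s t : ℕ} (h : s ≤ t) : Poly F t ≤ Poly F s :=
  fun _ hu n k => Q_anti hF h (hu n k)

lemma Poly_comm {F : ℕ → Subgroup G} (hF : Filt F) (s t : ℕ) {u v : ℤ → G} (hu : u ∈ Poly F s)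
    (hv : v ∈ Poly F t) : ⁅u, v⁆ ∈ Poly F (s + t) :=
  fun n h => Q_comm hF s t _ (hu n h) _ (hv n h)

lemma Poly_shift {F : ℕ → Subgroup G} {s : ℕ} {u : ℤ → G} (hu : u ∈ Poly F s) (a : ℤ) :
    (fun n => u (n + a)) ∈ Poly F s := by
  intro n h
  have := hu (n + a) h
  have e : cube (fun n => u (n + a)) n h = cube u (n + a) h := by
    funext ω
    simp only [cube]
    congr 1
    ring
  rw [e]
  exact this

lemma Q_deriv {F : ℕ → Subgroup G} (hF : Filt F) (s : ℕ) (k : ℕ) : ∀ c ∈ Q F s,
    (fun ω : Finset ℕ => c (ω.erase k)) ∈ Q F s ∧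
    (fun ω : Finset ℕ => c (insert k ω) * (c (ω.erase k))⁻¹) ∈ Q F (s + 1) := by
  intro c hc
  induction hc using closure_induction with
  | mem c hc =>
    obtain ⟨S, g, hg, rfl⟩ := hc
    by_cases hk : k ∈ S
    · have e1 : (fun ω : Finset ℕ => face S g (ω.erase k)) = 1 := by
        funext ω
        have : ¬ S ⊆ ω.erase k := fun h => by
          have := h hk
          simp at this
        simp [face, this]
      have e2 : (fun ω : Finset ℕ => face S g (insert k ω) * (face S g (ω.erase k))⁻¹) =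
          face (S.erase k) g := by
        funext ω
        have h1 := congrFun e1 ω
        simp only [Pi.one_apply] at h1
        rw [h1, inv_one, mul_one]
        simp only [face, Finset.subset_insert_iff]
      rw [e1, e2]
      refine ⟨one_mem _, face_mem ?_⟩
      have h2 : (S.erase k).card + (s + 1) = S.card + s := by
        have := Finset.card_erase_add_one hk
        omega
      rw [h2]
      exact hg
    · have e1 : (fun ω : Finset ℕ => face S g (ω.erase k)) = face S g := by
        funext ω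
        have : S ⊆ ω.erase k ↔ S ⊆ ω := by
          constructor
          · intro h; exact h.trans (Finset.erase_subset _ _)
          · intro h x hx
            rw [Finset.mem_erase]
            exact ⟨fun e => hk (e ▸ hx), h hx⟩
        simp only [face, this]
      have e2 : (fun ω : Finset ℕ => face S g (insert k ω) * (face S g (ω.erase k))⁻¹) = 1 := by
        funext ω
        have h1 : face S g (ω.erase k) = face S g ω := congrFun e1 ω
        rw [h1]
        have : S ⊆ insert k ω ↔ S ⊆ ω := by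
          rw [Finset.subset_insert_iff, Finset.erase_eq_of_notMem hk]
        simp only [face, this, mul_inv_cancel, Pi.one_apply]
      rw [e1, e2]
      exact ⟨face_mem hg, one_mem _⟩
  | one =>
    constructor
    · exact one_mem _
    · have : (fun ω : Finset ℕ => (1 : Finset ℕ → G) (insert k ω) * ((1 : Finset ℕ → G) (ω.erase k))⁻¹) = 1 := by
        funext ω; simp
      rw [this]
      exact one_mem _
  | mul c d hc hd ihc ihd =>
    refine ⟨mul_mem ihc.1 ihd.1, ?_⟩
    have e : (fun ω : Finset ℕ => (c * d) (insert k ω) * ((c * d) (ω.erase k))⁻¹) =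
        (fun ω : Finset ℕ => c (insert k ω) * (c (ω.erase k))⁻¹) *
          ((fun ω : Finset ℕ => c (ω.erase k)) *
            (fun ω : Finset ℕ => d (insert k ω) * (d (ω.erase k))⁻¹) *
            (fun ω : Finset ℕ => c (ω.erase k))⁻¹) := by
      funext ω
      simp only [Pi.mul_apply, Pi.inv_apply]
      group
    rw [e]
    exact mul_mem ihc.2 (Q_conj hF _ _ (Q_anti hF (Nat.zero_le s) ihc.1) _ ihd.2)
  | inv c hc ihc =>
    refine ⟨inv_mem ihc.1, ?_⟩
    have e : (fun ω : Finset ℕ => (c⁻¹) (insert k ω) * ((c⁻¹) (ω.erase k))⁻¹) =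
        (fun ω : Finset ℕ => c (ω.erase k))⁻¹ *
          (fun ω : Finset ℕ => c (insert k ω) * (c (ω.erase k))⁻¹)⁻¹ *
            ((fun ω : Finset ℕ => c (ω.erase k))⁻¹)⁻¹ := by
      funext ω
      simp only [Pi.mul_apply, Pi.inv_apply]
      group
    rw [e]
    exact Q_conj hF _ _ (inv_mem (Q_anti hF (Nat.zero_le s) ihc.1)) _ (inv_mem ihc.2)

lemma Poly_deriv {F : ℕ → Subgroup G} (hF : Filt F) {s : ℕ} {u : ℤ → G} (hu : u ∈ Poly F s) (a : ℤ) :
    (fun n => u (n + a) * (u n)⁻¹) ∈ Poly F (s + 1) := by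
  intro n h
  obtain ⟨k, hk⟩ : ∃ k : ℕ, h k = 0 := by
    obtain ⟨k, hk⟩ := Infinite.exists_notMem_finset h.support
    exact ⟨k, Finsupp.notMem_support_iff.1 hk⟩
  have h1 := (Q_deriv hF s k _ (hu n (h + Finsupp.single k a))).2
  have e : cube (fun n => u (n + a) * (u n)⁻¹) n h =
      fun ω => cube u n (h + Finsupp.single k a) (insert k ω) *
        (cube u n (h + Finsupp.single k a) (ω.erase k))⁻¹ := by
    funext ω
    simp only [cube]
    have s1 : ∑ i ∈ insert k ω, (h + Finsupp.single k a) i = ∑ i ∈ ω, h i + a := by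
      have s0 : insert k ω = insert k (ω.erase k) := by
        ext i
        by_cases hi : i = k <;> simp [hi]
      rw [s0, Finset.sum_insert (Finset.notMem_erase k ω)]
      have s2 : ∑ i ∈ ω.erase k, (h + Finsupp.single k a) i = ∑ i ∈ ω.erase k, h i := by
        apply Finset.sum_congr rfl
        intro i hi
        rw [Finsupp.add_apply, Finsupp.single_apply, if_neg (Finset.ne_of_mem_erase hi).symm, add_zero]
      rw [s2, Finsupp.add_apply, Finsupp.single_eq_same, hk, Finset.sum_erase ω hk]
      ring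
    have s2 : ∑ i ∈ ω.erase k, (h + Finsupp.single k a) i = ∑ i ∈ ω, h i := by
      rw [← Finset.sum_erase ω hk]
      apply Finset.sum_congr rfl
      intro i hi
      rw [Finsupp.add_apply, Finsupp.single_apply, if_neg (Finset.ne_of_mem_erase hi).symm, add_zero]
    rw [s1, s2]
    congr 2
    ring
  rw [e]
  exact h1

/-- functions of degree at most `d` -/
def Deg : ℕ → Set (ℤ → ℤ)
  | 0 => {f | ∀ h n, f (n + h) = f n}
  | d + 1 => {f | ∀ h, (fun n => f (n + h) - f n) ∈ Deg d}

/-- multiplication by the characteristic function of a face -/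
lemma Q_face {F : ℕ → Subgroup G} (hF : Filt F) (s k : ℕ) : ∀ c ∈ Q F (s + 1),
    (fun ω : Finset ℕ => if k ∈ ω then c ω else 1) ∈ Q F s := by
  intro c hc
  induction hc using closure_induction with
  | mem c hc =>
    obtain ⟨S, g, hg, rfl⟩ := hc
    have e : (fun ω : Finset ℕ => if k ∈ ω then face S g ω else 1) = face (insert k S) g := by
      funext ω
      by_cases h1 : k ∈ ω <;> by_cases h2 : S ⊆ ω <;> simp [face, Finset.insert_subset_iff, h1, h2]
    rw [e]
    apply face_mem
    apply hF.anti _ hg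
    have := Finset.card_insert_le k S
    omega
  | one =>
    have : (fun ω : Finset ℕ => if k ∈ ω then (1 : Finset ℕ → G) ω else 1) = 1 := by
      funext ω; simp
    rw [this]
    exact one_mem _
  | mul c d _ _ ihc ihd =>
    have e : (fun ω : Finset ℕ => if k ∈ ω then (c * d) ω else 1) =
        (fun ω : Finset ℕ => if k ∈ ω then c ω else 1) * (fun ω : Finset ℕ => if k ∈ ω then d ω else 1) := by
      funext ω
      by_cases h1 : k ∈ ω <;> simp [h1]
    rw [e]
    exact mul_mem ihc ihd
  | inv c _ ihc =>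
    have e : (fun ω : Finset ℕ => if k ∈ ω then (c⁻¹) ω else 1) =
        (fun ω : Finset ℕ => if k ∈ ω then c ω else 1)⁻¹ := by
      funext ω
      by_cases h1 : k ∈ ω <;> simp [h1]
    rw [e]
    exact inv_mem ihc

lemma pow_cube {F : ℕ → Subgroup G} (hF : Filt F) (r : ℕ) : ∀ (d s : ℕ) (t : G), t ∈ F (d + s) →
    ∀ f ∈ Deg d, ∀ (n : ℤ) (h : ℕ →₀ ℤ), (∀ i, r ≤ i → h i = 0) →
      cube (fun n => t ^ f n) n h ∈ Q F s := by
  induction r with
  | zero =>
    intro d s t ht f _ n h hh
    have e : cube (fun n => t ^ f n) n h = face ∅ (t ^ f n) := by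
      funext ω
      have : ∑ i ∈ ω, h i = 0 := Finset.sum_eq_zero fun i _ => hh i (Nat.zero_le i)
      simp [cube, face, this]
    rw [e]
    apply face_mem
    rw [Finset.card_empty, zero_add]
    exact zpow_mem (hF.anti (by omega) ht) _
  | succ r ih =>
    intro d s t ht f hf n h hh
    obtain ⟨h', hh'⟩ : ∃ h' : ℕ →₀ ℤ, h' = h.erase r := ⟨_, rfl⟩
    have hh0 : ∀ i, r ≤ i → h' i = 0 := by
      intro i hi
      rw [hh']
      rcases eq_or_lt_of_le hi with h1 | h1
      · rw [← h1, Finsupp.erase_same]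
      · rw [Finsupp.erase_ne (by omega)]
        exact hh i h1
    have hsum : ∀ ω : Finset ℕ, ∑ i ∈ ω, h i = ∑ i ∈ ω, h' i + if r ∈ ω then h r else 0 := by
      intro ω
      by_cases h1 : r ∈ ω
      · rw [if_pos h1, ← Finset.add_sum_erase ω _ h1, ← Finset.add_sum_erase ω (fun i => h' i) h1,
          hh0 r le_rfl, zero_add, add_comm]
        congr 1
        apply Finset.sum_congr rfl
        intro i hi
        rw [hh', Finsupp.erase_ne (Finset.ne_of_mem_erase hi)]
      · rw [if_neg h1, add_zero]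
        apply Finset.sum_congr rfl
        intro i hi
        have hne : i ≠ r := by
          intro e
          rw [e] at hi
          exact h1 hi
        rw [hh', Finsupp.erase_ne hne]
    have h0 := ih d s t ht f hf n h' hh0
    have e : cube (fun n => t ^ f n) n h = cube (fun n => t ^ f n) n h' *
        fun ω => if r ∈ ω then cube (fun n => t ^ (f (n + h r) - f n)) n h' ω else 1 := by
      funext ω
      simp only [Pi.mul_apply, cube]
      rw [hsum]
      by_cases h1 : r ∈ ω
      · rw [if_pos h1, if_pos h1, ← zpow_add]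
        congr 1
        have e2 : n + (∑ i ∈ ω, h' i + h r) = n + ∑ i ∈ ω, h' i + h r := by ring
        rw [e2]
        ring
      · rw [if_neg h1, if_neg h1, add_zero, mul_one]
    rw [e]
    refine mul_mem h0 (Q_face hF s r _ ?_)
    cases d with
    | zero =>
      have e3 : cube (fun n => t ^ (f (n + h r) - f n)) n h' = 1 := by
        funext ω
        simp only [cube, Pi.one_apply]
        rw [hf, sub_self, zpow_zero]
      rw [e3]
      exact one_mem _
    | succ d =>
      exact ih d (s + 1) t (by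
        have : d + (s + 1) = d + 1 + s := by ring
        rw [this]; exact ht) _ (hf (h r)) n h' hh0

/-- powers with polynomial exponents are polynomial sequences -/
lemma pow_mem_Poly {F : ℕ → Subgroup G} (hF : Filt F) {d s : ℕ} {t : G} (ht : t ∈ F (d + s))
    {f : ℤ → ℤ} (hf : f ∈ Deg d) : (fun n => t ^ f n) ∈ Poly F s := by
  intro n h
  obtain ⟨r, hr⟩ : ∃ r : ℕ, ∀ i, r ≤ i → h i = 0 := by
    refine ⟨h.support.sup id + 1, fun i hi => ?_⟩
    by_contra h1
    have h2 : i ∈ h.support := Finsupp.mem_support_iff.2 h1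
    have h3 := Finset.le_sup (f := id) h2
    simp only [id] at h3
    omega
  exact pow_cube hF r d s t ht f hf n h hr

lemma Poly_bot {F : ℕ → Subgroup G} (hF : Filt F) {s : ℕ} (h : F s = ⊥) : Poly F s = ⊥ := by
  have h1 : Q F s = ⊥ := by
    unfold Q
    rw [closure_eq_bot_iff]
    rintro c ⟨S, g, hg, rfl⟩
    have h2 : g ∈ F s := hF.anti (by omega) hg
    rw [h, mem_bot] at h2
    rw [h2]
    funext ω
    simp [face]
  rw [eq_bot_iff]
  intro u hu
  rw [mem_bot]
  funext n
  have h2 := hu n 0
  rw [h1, mem_bot] at h2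
  have h3 := congrFun h2 ∅
  simpa [cube] using h3

/-! ### degrees -/

lemma Deg_mono (d : ℕ) : Deg d ⊆ Deg (d + 1) := by
  induction d with
  | zero =>
    intro f hf h k n
    have := hf
    simp only [Deg, Set.mem_ofPred_eq] at this
    simp only
    rw [this, this, sub_self, this, sub_self]
  | succ d ih =>
    intro f hf h
    exact ih (hf h)

lemma Deg_le {d e : ℕ} (h : d ≤ e) : Deg d ⊆ Deg e := by
  induction h with
  | refl => exact subset_rfl
  | step _ ih => exact ih.trans (Deg_mono _)

lemma Deg_shift (d : ℕ) : ∀ f ∈ Deg d, ∀ a : ℤ, (fun n => f (n + a)) ∈ Deg d := by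
  induction d with
  | zero =>
    intro f hf a h n
    simp only [Deg, Set.mem_ofPred_eq] at hf
    simp only
    rw [hf, hf, hf]
  | succ d ih =>
    intro f hf a h
    have h1 := ih _ (hf h) a
    have e : (fun n => f (n + h + a) - f (n + a)) = fun n => f (n + a + h) - f (n + a) := by
      funext n
      congr 2
      ring
    change (fun n => f (n + h + a) - f (n + a)) ∈ Deg d
    rw [e]
    exact h1

lemma Deg_add (d : ℕ) : ∀ f ∈ Deg d, ∀ g ∈ Deg d, (fun n => f n + g n) ∈ Deg d := by
  induction d with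
  | zero =>
    intro f hf g hg h n
    simp only [Deg, Set.mem_ofPred_eq] at hf hg
    simp only
    rw [hf, hg]
  | succ d ih =>
    intro f hf g hg h
    have h1 := ih _ (hf h) _ (hg h)
    have e : (fun n => f (n + h) + g (n + h) - (f n + g n)) =
        fun n => f (n + h) - f n + (g (n + h) - g n) := by
      funext n
      ring
    change (fun n => f (n + h) + g (n + h) - (f n + g n)) ∈ Deg d
    rw [e]
    exact h1

lemma Deg_smul (d : ℕ) : ∀ f ∈ Deg d, ∀ a : ℤ, (fun n => a * f n) ∈ Deg d := by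
  induction d with
  | zero =>
    intro f hf a h n
    simp only [Deg, Set.mem_ofPred_eq] at hf
    simp only
    rw [hf]
  | succ d ih =>
    intro f hf a h
    have h1 := ih _ (hf h) a
    have e : (fun n => a * f (n + h) - a * f n) = fun n => a * (f (n + h) - f n) := by
      funext n
      ring
    change (fun n => a * f (n + h) - a * f n) ∈ Deg d
    rw [e]
    exact h1

lemma Deg_X (d : ℕ) : ∀ f ∈ Deg d, (fun n => n * f n) ∈ Deg (d + 1) := by
  induction d with
  | zero =>
    intro f hf h
    have h1 : (fun n => (n + h) * f (n + h) - n * f n) = fun n => h * f n := by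
      funext n
      simp only [Deg, Set.mem_ofPred_eq] at hf
      rw [hf]
      ring
    change (fun n => (n + h) * f (n + h) - n * f n) ∈ Deg 0
    rw [h1]
    exact Deg_smul 0 f hf h
  | succ d ih =>
    intro f hf h
    have h1 := ih _ (hf h)
    have h2 := Deg_smul _ _ (Deg_shift _ f hf h) h
    have h3 := Deg_add _ _ h1 _ h2
    have e : (fun n => (n + h) * f (n + h) - n * f n) =
        fun n => n * (f (n + h) - f n) + h * f (n + h) := by
      funext n
      ring
    change (fun n => (n + h) * f (n + h) - n * f n) ∈ Deg (d + 1)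
    rw [e]
    exact h3

/-- a polynomial of degree `≤ d` has degree `≤ d` in this sense -/
lemma Deg_poly (d : ℕ) : ∀ P : Polynomial ℤ, P.natDegree ≤ d → (fun n => P.eval n) ∈ Deg d := by
  induction d with
  | zero =>
    intro P hP h n
    rw [Polynomial.eq_C_of_natDegree_le_zero hP]
    simp
  | succ d ih =>
    intro P hP
    have h1 := Deg_X d _ (ih P.divX (by rw [Polynomial.natDegree_divX_eq_natDegree_tsub_one]; omega))
    have h2 : (fun _ : ℤ => P.coeff 0) ∈ Deg (d + 1) :=
      Deg_le (Nat.zero_le _) (by intro h n; rfl)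
    have h3 := Deg_add _ _ h1 _ h2
    have e : (fun n => P.eval n) = fun n => n * P.divX.eval n + P.coeff 0 := by
      funext n
      conv_lhs => rw [← Polynomial.divX_mul_X_add P]
      rw [Polynomial.eval_add, Polynomial.eval_mul, Polynomial.eval_X, Polynomial.eval_C]
      ring
    rw [e]
    exact h3

end Pool.Agent.V5helper15.LE
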