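import Pool.Agent.V5helper15.LE.Meas

set_option autoImplicit false

/-!
# The polynomial case follows from the linear case
-/

namespace Pool.Agent.V5helper15.LE

open MeasureTheory Filter Topology Subgroup ProbabilityTheory
open scoped ENNReal

lemma inv_mp {X : Type} [MeasurableSpace X] {μ : Measure X} {g : Equiv.Perm X}
    (h : MeasurePreserving (⇑g) μ μ) (h' : Measurable ⇑g.symm) : MeasurePreserving (⇑g.symm) μ μ := by
  let e : X ≃ᵐ X := { toEquiv := g, measurable_toFun := h.measurable, measurable_invFun := h' }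
  have h1 : MeasurePreserving (⇑e) μ μ := h
  exact h1.symm e

/-- elements of the group are measure preserving -/
lemma group_mp {X : Type} [MeasurableSpace X] {μ : Measure X} (s : Set (Equiv.Perm X))
    (hs : ∀ g ∈ s, MeasurePreserving (⇑g) μ μ ∧ Measurable ⇑g.symm) :
    ∀ g ∈ closure s, MeasurePreserving (⇑g) μ μ ∧ Measurable ⇑g.symm := by
  intro g hg
  induction hg using closure_induction with
  | mem g hg => exact hs g hg
  | one => exact ⟨MeasurePreserving.id μ, measurable_id⟩
  | mul g h _ _ ihg ihh =>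
    exact ⟨ihg.1.comp ihh.1, ihh.2.comp ihg.2⟩
  | inv g _ ih =>
    exact ⟨inv_mp ih.1 ih.2, ih.1.measurable⟩

/-- bounded measurable versions -/
lemma bdd_version {X : Type} [MeasurableSpace X] {μ : Measure X} {f : X → ℂ} (hf : MemLp f ∞ μ) :
    ∃ g : X → ℂ, Measurable g ∧ (∃ C : ℝ, ∀ x, ‖g x‖ ≤ C) ∧ f =ᵐ[μ] g := by
  obtain ⟨h, hh, hfh⟩ := hf.1
  obtain ⟨C, hC⟩ : ∃ C : ℝ, C = (eLpNorm f ∞ μ).toReal := ⟨_, rfl⟩
  have hae : ∀ᵐ x ∂μ, ‖f x‖ ≤ C := by
    have h1 := ae_le_eLpNormEssSup (f := f) (μ := μ)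
    have h2 : eLpNormEssSup f μ ≠ ∞ := by
      have := hf.2.ne
      rwa [eLpNorm_exponent_top] at this
    filter_upwards [h1] with x hx
    rw [hC, eLpNorm_exponent_top]
    have h3 := (ENNReal.toReal_le_toReal (by simp) h2).2 hx
    simpa using h3
  refine ⟨{x | ‖h x‖ ≤ C}.indicator h, ?_, ?_, ?_⟩
  · exact hh.measurable.indicator (measurableSet_le hh.measurable.norm measurable_const)
  · refine ⟨C, fun x => ?_⟩
    by_cases hx : x ∈ {x | ‖h x‖ ≤ C}
    · rw [Set.indicator_of_mem hx]
      exact hx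
    · rw [Set.indicator_of_notMem hx, norm_zero, hC]
      exact ENNReal.toReal_nonneg
  · filter_upwards [hfh, hae] with x h1 h2
    rw [Set.indicator_of_mem]
    · exact h1
    · rw [h1] at h2
      exact h2

/-- the polynomial case from the linear case -/
theorem poly_of_lin (k D : ℕ) (hk : 1 ≤ k) (h : LinearCase (k * (D + 1))) : PolynomialCase k D := by
  intro X mX μ _ d m T hTs hT hnil P hP f hf
  obtain ⟨t, ht⟩ : ∃ t : Fin d → closure (Set.range T), ∀ i, (t i : Equiv.Perm X) = T i :=
    ⟨fun i => ⟨T i, subset_closure ⟨i, rfl⟩⟩, fun i => rfl⟩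
  obtain ⟨u, hu⟩ : ∃ u : Fin m → ℤ → closure (Set.range T), ∀ j,
      u j = (List.ofFn fun i => fun n : ℤ => t i ^ (P i j).eval n).prod := ⟨_, fun _ => rfl⟩
  have hum : ∀ j, u j ∈ Poly (fil D) 1 := by
    intro j
    rw [hu]
    apply list_prod_mem
    intro x hx
    rw [List.mem_ofFn] at hx
    obtain ⟨i, rfl⟩ := hx
    exact pow_mem_Poly (fil_filt D) (fil_top D (t i)) (Deg_poly D _ (hP i j).1)
  have hun : ∀ j n, ((u j n : closure (Set.range T)) : Equiv.Perm X) =
      (List.ofFn fun i => T i ^ (P i j).eval n).prod := by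
    intro j n
    rw [hu]
    have e1 : (List.ofFn fun i => fun n : ℤ => t i ^ (P i j).eval n).prod n =
        (List.ofFn fun i => t i ^ (P i j).eval n).prod := by
      have := map_list_prod (Pi.evalMonoidHom (fun _ : ℤ => closure (Set.range T)) n)
        (List.ofFn fun i => fun n : ℤ => t i ^ (P i j).eval n)
      rw [List.map_ofFn] at this
      exact this
    rw [e1]
    have e2 := map_list_prod (closure (Set.range T)).subtype (List.ofFn fun i => t i ^ (P i j).eval n)
    rw [List.map_ofFn] at e2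
    refine e2.trans ?_
    congr 1
    congr 1
    funext i
    simp only [Function.comp, map_zpow, Subgroup.subtype_apply, ht]
  have hmp : ∀ g ∈ closure (Set.range T), MeasurePreserving (⇑g) μ μ ∧ Measurable ⇑g.symm := by
    apply group_mp
    rintro g ⟨i, rfl⟩
    exact ⟨hT i, hTs i⟩
  choose f' hf'm hf'b hff' using fun j => bdd_version (hf j)
  have hae : ∀ᵐ x ∂μ, ∀ (j : Fin m) (n : ℤ), f j ((u j n : Equiv.Perm X) x) =
      f' j ((u j n : Equiv.Perm X) x) := by
    rw [ae_all_iff]
    intro j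
    rw [ae_all_iff]
    intro n
    exact (hmp _ (u j n).2).1.quasiMeasurePreserving.ae (hff' j)
  obtain ⟨S, hS⟩ : ∃ S : Fin m → Equiv.Perm (ℤ → X), ∀ j, S j = Phi fun n => (u j n : Equiv.Perm X) :=
    ⟨_, fun _ => rfl⟩
  have hSinv : ∀ j, ⇑(S j).symm = ⇑(Phi fun n => ((u j n)⁻¹ : closure (Set.range T)).1) := by
    intro j
    rw [hS]
    rfl
  have h1 := h (ℤ → X) (gen X) (Measure.infinitePi fun _ : ℤ => μ) m (sh X) S
    (measurable_pi_lambda _ fun n => measurable_pi_apply (n - 1)) (sh_mp μ)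
    (fun j => by
      rw [hSinv]
      exact (Phi_mp μ _ fun n => (hmp _ ((u j n)⁻¹).2).1).measurable)
    (fun j => by
      rw [hS]
      exact Phi_mp μ _ fun n => (hmp _ (u j n).2).1)
    (nil_main (closure (Set.range T)) D k hk hnil (Set.range S) (by
      rintro _ ⟨j, rfl⟩
      exact ⟨u j, hum j, hS j⟩))
    (gen_indep μ)
    (fun j n => by
      rw [hS]
      exact gen_inv _ (fun n => (hmp _ (u j n).2).1.measurable) (fun n => (hmp _ (u j n).2).2) n)
    (fun j x => f' j (x 0))
    (fun j => (hf'm j).comp (comap_measurable _))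
    (fun j => by
      obtain ⟨C, hC⟩ := hf'b j
      exact ⟨C, fun x => hC _⟩)
  have hcomp : ∀ (j : Fin m) (n : ℤ) (y : ℤ → X),
      (((S j)⁻¹ * sh X * S j) ^ n * ((sh X) ^ n)⁻¹) y 0 = (u j n : Equiv.Perm X) (y 0) := by
    intro j n y
    have e1 : ((S j)⁻¹ * sh X * S j) ^ n = (S j)⁻¹ * (sh X) ^ n * S j := by
      have := conj_zpow (a := (S j)⁻¹) (b := sh X) (i := n)
      rwa [inv_inv] at this
    have e2 : ((S j)⁻¹ * sh X * S j) ^ n * ((sh X) ^ n)⁻¹ =
        (S j)⁻¹ * ((sh X) ^ n * S j * ((sh X) ^ n)⁻¹) := by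
      rw [e1]; group
    rw [e2, hS j, sh_conj, ← map_inv, ← map_mul, Phi_apply]
    have e3 : (u j 0 : Equiv.Perm X) = 1 := by
      rw [hun]
      apply List.prod_eq_one
      intro x hx
      rw [List.mem_ofFn] at hx
      obtain ⟨i, rfl⟩ := hx
      rw [(hP i j).2, zpow_zero]
    simp only [Pi.mul_apply, Pi.inv_apply, e3, inv_one, one_mul, zero_add]
  have h2 : ∀ᵐ y ∂(Measure.infinitePi fun _ : ℤ => μ),
      Conv fun n => ∏ j, f' j ((u j n : Equiv.Perm X) (y 0)) := by
    filter_upwards [h1] with y hy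
    have e : (fun n : ℤ => ∏ j, f' j ((u j n : Equiv.Perm X) (y 0))) =
        fun n => ∏ j, f' j ((((S j)⁻¹ * sh X * S j) ^ n * ((sh X) ^ n)⁻¹) y 0) := by
      funext n
      exact Finset.prod_congr rfl fun j _ => by rw [hcomp]
    rw [e]
    exact hy
  have hms : MeasurableSet {x : X | Conv fun n => ∏ j, f' j ((u j n : Equiv.Perm X) x)} := by
    apply measurableSet_exists_tendsto
    intro N
    apply Measurable.const_mul
    apply Finset.measurable_fun_sum
    intro n _
    apply Finset.measurable_fun_prod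
    intro j _
    exact (hf'm j).comp (hmp _ (u j n).2).1.measurable
  have hev := measurePreserving_eval_infinitePi (fun _ : ℤ => μ) 0
  have h3 : ∀ᵐ x ∂μ, Conv fun n => ∏ j, f' j ((u j n : Equiv.Perm X) x) := by
    have h4 : ∀ᵐ x ∂((Measure.infinitePi fun _ : ℤ => μ).map (Function.eval 0)),
        Conv fun n => ∏ j, f' j ((u j n : Equiv.Perm X) x) :=
      (ae_map_iff hev.measurable.aemeasurable hms).2 h2
    rwa [hev.map_eq] at h4
  filter_upwards [h3, hae] with x h4 h5
  have e : (fun n : ℤ => ∏ j, f j ((List.ofFn fun i => T i ^ (P i j).eval n).prod x)) =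
      fun n => ∏ j, f' j ((u j n : Equiv.Perm X) x) := by
    funext n
    exact Finset.prod_congr rfl fun j _ => by rw [← hun, h5]
  rw [e]
  exact h4

lemma ofFn_single {M : Type*} [Monoid M] (a : M) : ∀ (m : ℕ) (j : Fin m),
    (List.ofFn fun i => if i = j then a else 1).prod = a := by
  intro m
  induction m with
  | zero => intro j; exact j.elim0
  | succ m ih =>
    intro j
    rw [List.ofFn_succ, List.prod_cons]
    refine Fin.cases ?_ (fun j => ?_) j
    · rw [if_pos rfl, List.prod_eq_one, mul_one]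
      intro x hx
      rw [List.mem_ofFn] at hx
      obtain ⟨i, rfl⟩ := hx
      rw [if_neg (Fin.succ_ne_zero i)]
    · rw [if_neg (Fin.succ_ne_zero j).symm, one_mul]
      simp_rw [Fin.succ_inj]
      exact ih j

/-- the linear case is a part of the polynomial case -/
theorem lin_of_poly (c : ℕ) (h : PolynomialCase c 1) : LinearCase c := by
  intro X 𝒞 mX μ _ m σ S hσs hσ hSs hS hnil hgen hinv f hf hfb
  obtain ⟨T, hT⟩ : ∃ T : Fin (m + 1) → Equiv.Perm X,
      T = Fin.snoc (fun j => (S j)⁻¹ * σ * S j) σ := ⟨_, rfl⟩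
  have hTc : ∀ j : Fin m, T j.castSucc = (S j)⁻¹ * σ * S j := fun j => by
    rw [hT, Fin.snoc_castSucc]
  have hTl : T (Fin.last m) = σ := by rw [hT, Fin.snoc_last]
  have hsub : ∀ i, T i ∈ closure (insert σ (Set.range S)) := by
    intro i
    have h1 : σ ∈ closure (insert σ (Set.range S)) := subset_closure (Set.mem_insert _ _)
    refine Fin.lastCases ?_ (fun j => ?_) i
    · rw [hTl]; exact h1
    · rw [hTc]
      have h2 : S j ∈ closure (insert σ (Set.range S)) :=
        subset_closure (Set.mem_insert_of_mem _ ⟨j, rfl⟩)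
      exact mul_mem (mul_mem (inv_mem h2) h1) h2
  have hmp : ∀ g ∈ closure (insert σ (Set.range S)),
      MeasurePreserving (⇑g) μ μ ∧ Measurable ⇑g.symm := by
    apply group_mp
    rintro g (rfl | ⟨j, rfl⟩)
    · exact ⟨hσ, hσs⟩
    · exact ⟨hS j, hSs j⟩
  have hle : closure (Set.range T) ≤ closure (insert σ (Set.range S)) := by
    rw [closure_le]
    rintro _ ⟨i, rfl⟩
    exact hsub i
  have h𝒞 : 𝒞 ≤ mX := by
    have h1 : 𝒞.comap ⇑(σ ^ (0 : ℤ)) ≤ ⨆ n : ℤ, 𝒞.comap ⇑(σ ^ n) :=
      le_iSup (fun n : ℤ => 𝒞.comap ⇑(σ ^ n)) 0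
    rw [zpow_zero] at h1
    rw [hgen.1]
    refine le_trans (le_of_eq ?_) h1
    exact (MeasurableSpace.comap_id).symm
  have h1 := h X μ (m + 1) m T (fun i => (hmp _ (hsub i)).2) (fun i => (hmp _ (hsub i)).1)
    (by
      rw [eq_bot_iff, ← hnil]
      exact Subgroup.lowerCentralSeries_mono c hle)
    (fun i j => if i = j.castSucc then Polynomial.X else if i = Fin.last m then -Polynomial.X else 0)
    (fun i j => by
      constructor
      · split_ifs
        · exact Polynomial.natDegree_X_le
        · rw [Polynomial.natDegree_neg]; exact Polynomial.natDegree_X_le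
        · simp
      · split_ifs <;> simp)
    f (fun j => by
      obtain ⟨C, hC⟩ := hfb j
      exact MemLp.of_bound (((hf j).mono h𝒞 le_rfl).aestronglyMeasurable) C
        (Eventually.of_forall hC))
  filter_upwards [h1] with x hx
  have e : (fun n : ℤ => ∏ j, f j ((((S j)⁻¹ * σ * S j) ^ n * (σ ^ n)⁻¹) x)) =
      fun n => ∏ j, f j ((List.ofFn fun i => T i ^ (if i = j.castSucc then Polynomial.X else
        if i = Fin.last m then -Polynomial.X else 0 : Polynomial ℤ).eval n).prod x) := by
    funext n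
    refine Finset.prod_congr rfl fun j _ => ?_
    congr 2
    rw [List.ofFn_succ', List.concat_eq_append, List.prod_append, List.prod_singleton, hTl]
    congr 1
    · have e1 : (fun i : Fin m => T i.castSucc ^ (if i.castSucc = j.castSucc then Polynomial.X else
        if i.castSucc = Fin.last m then -Polynomial.X else 0 : Polynomial ℤ).eval n) =
          fun i => if i = j then ((S j)⁻¹ * σ * S j) ^ n else 1 := by
        funext i
        by_cases hij : i = j
        · rw [hij, if_pos rfl, if_pos rfl, hTc, Polynomial.eval_X]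
        · rw [if_neg hij, if_neg (fun e => hij (Fin.castSucc_injective m e)),
            if_neg (Fin.castSucc_ne_last i), Polynomial.eval_zero, zpow_zero]
      rw [e1, ofFn_single]
    · rw [if_neg (Fin.castSucc_ne_last j).symm, if_pos rfl, Polynomial.eval_neg, Polynomial.eval_X,
        zpow_neg]
  rw [e]
  exact hx

end Pool.Agent.V5helper15.LE
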