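import Pool.Agent.V5helper15.LE.Nil

set_option autoImplicit false

/-!
# Linear and polynomial multiple averages: definitions and the construction on `X^ℤ`
-/

namespace Pool.Agent.V5helper15.LE

open MeasureTheory Filter Topology Subgroup ProbabilityTheory
open scoped ENNReal

/-- The averages of `a` over `|n| ≤ N` converge. -/
def Conv (a : ℤ → ℂ) : Prop :=
  ∃ L : ℂ, Tendsto (fun N : ℕ => ((2 * N + 1 : ℕ) : ℂ)⁻¹ * ∑ n ∈ Finset.Icc (-(N : ℤ)) (N : ℤ), a n)
    atTop (𝓝 L)

/-- `σ` is a Bernoulli shift with the independent generator `𝒞`: the σ-algebras `(σ^n)⁻¹ 𝒞`, `n ∈ ℤ`, are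
independent, and together they generate the σ-algebra of `X`. -/
def IsIndependentGenerator {X : Type} [mX : MeasurableSpace X] (μ : Measure X) (σ : Equiv.Perm X)
    (𝒞 : MeasurableSpace X) : Prop :=
  mX = ⨆ n : ℤ, 𝒞.comap ⇑(σ ^ n) ∧ iIndep (fun n : ℤ => 𝒞.comap ⇑(σ ^ n)) μ

/-- Q1 for groups of step at most `k` and polynomials of degree at most `D`. -/
def PolynomialCase (k D : ℕ) : Prop :=
  ∀ (X : Type) [MeasurableSpace X] (μ : Measure X) [IsProbabilityMeasure μ] (d m : ℕ)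
    (T : Fin d → Equiv.Perm X), (∀ i, Measurable ⇑(T i).symm) → (∀ i, MeasurePreserving (⇑(T i)) μ μ) →
    (closure (Set.range T)).lowerCentralSeries k = ⊥ →
    ∀ P : Fin d → Fin m → Polynomial ℤ, (∀ i j, (P i j).natDegree ≤ D ∧ (P i j).eval 0 = 0) →
    ∀ f : Fin m → X → ℂ, (∀ j, MemLp (f j) ∞ μ) →
    ∀ᵐ x ∂μ, Conv fun n => ∏ j, f j ((List.ofFn fun i => T i ^ (P i j).eval n).prod x)

/-- The averages of `∏ f_j(R_j^n σ^(-n) x)`, `R_j = S_j⁻¹ σ S_j`, converge almost everywhere if `σ` and the `S_j`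
generate a group of step at most `c`, `σ` is a Bernoulli shift with the independent generator `𝒞`, the `S_j`
leave all σ-algebras `(σ^n)⁻¹ 𝒞` invariant, and the `f_j` are bounded and `𝒞`-measurable. -/
def LinearCase (c : ℕ) : Prop :=
  ∀ (X : Type) (𝒞 : MeasurableSpace X) [MeasurableSpace X] (μ : Measure X) [IsProbabilityMeasure μ]
    (m : ℕ) (σ : Equiv.Perm X) (S : Fin m → Equiv.Perm X), Measurable ⇑σ.symm →
    MeasurePreserving (⇑σ) μ μ → (∀ j, Measurable ⇑(S j).symm) →
    (∀ j, MeasurePreserving (⇑(S j)) μ μ) →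
    (closure (insert σ (Set.range S))).lowerCentralSeries c = ⊥ → IsIndependentGenerator μ σ 𝒞 →
    (∀ j (n : ℤ), (𝒞.comap ⇑(σ ^ n)).comap ⇑(S j) = 𝒞.comap ⇑(σ ^ n)) →
    ∀ f : Fin m → X → ℂ, (∀ j, Measurable[𝒞] (f j)) → (∀ j, ∃ C : ℝ, ∀ x, ‖f j x‖ ≤ C) →
    ∀ᵐ x ∂μ, Conv fun n => ∏ j, f j ((((S j)⁻¹ * σ * S j) ^ n * (σ ^ n)⁻¹) x)

/-! ### the system on `X^ℤ` -/

variable {X : Type} [mX : MeasurableSpace X] (μ : Measure X) [IsProbabilityMeasure μ]

lemma sh_mp : MeasurePreserving (⇑(sh X)) (Measure.infinitePi fun _ : ℤ => μ)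
    (Measure.infinitePi fun _ : ℤ => μ) := by
  refine ⟨?_, ?_⟩
  · exact measurable_pi_lambda _ fun n => measurable_pi_apply (n + 1)
  · refine Measure.eq_infinitePi _ fun s t ht => ?_
    have hm : Measurable (⇑(sh X)) := measurable_pi_lambda _ fun n => measurable_pi_apply (n + 1)
    rw [Measure.map_apply hm (.pi s.countable_toSet fun _ _ => ht _)]
    have e : ⇑(sh X) ⁻¹' ((s : Set ℤ).pi t) =
        ((s.map (Equiv.addRight (1 : ℤ)).toEmbedding : Finset ℤ) : Set ℤ).pi fun n => t (n - 1) := by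
      ext x
      simp only [Set.mem_preimage, Set.mem_pi, Finset.mem_coe, Finset.mem_map, sh_apply]
      constructor
      · rintro h n ⟨k, hk, rfl⟩
        simpa using h k hk
      · intro h n hn
        have := h (n + 1) ⟨n, hn, rfl⟩
        simpa using this
    rw [e, Measure.infinitePi_pi _ (fun n _ => ht _), Finset.prod_map]
    simp

lemma Phi_mp (u : ℤ → Equiv.Perm X) (h : ∀ n, MeasurePreserving (⇑(u n)) μ μ) :
    MeasurePreserving (⇑(Phi u)) (Measure.infinitePi fun _ : ℤ => μ)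
      (Measure.infinitePi fun _ : ℤ => μ) := by
  refine ⟨?_, ?_⟩
  · exact measurable_pi_lambda _ fun n => (h n).measurable.comp (measurable_pi_apply n)
  · have h1 := Measure.infinitePi_map_pi (μ := fun _ : ℤ => μ) (f := fun n => ⇑(u n))
      (fun n => (h n).measurable)
    have h2 : (fun n : ℤ => μ.map ⇑(u n)) = fun _ => μ := funext fun n => (h n).map_eq
    rw [h2] at h1
    exact h1

/-- the σ-algebra of the coordinate `0` -/
@[instance_reducible]
def gen (X : Type) [mX : MeasurableSpace X] : MeasurableSpace (ℤ → X) := mX.comap fun x => x 0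

lemma gen_comap (n : ℤ) : (gen X).comap ⇑((sh X) ^ n) = mX.comap fun x : ℤ → X => x n := by
  unfold gen
  rw [MeasurableSpace.comap_comp]
  congr 1
  funext x
  simp only [Function.comp]
  rw [sh_pow_apply, zero_add]

lemma gen_indep : IsIndependentGenerator (Measure.infinitePi fun _ : ℤ => μ) (sh X) (gen X) := by
  constructor
  · simp_rw [gen_comap]
    rfl
  · simp_rw [gen_comap]
    have h := iIndepFun_infinitePi (P := fun _ : ℤ => μ) (X := fun _ x => x) (fun _ => measurable_id)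
    exact h

lemma gen_inv (u : ℤ → Equiv.Perm X) (h : ∀ n, Measurable (⇑(u n))) (h' : ∀ n, Measurable (⇑(u n).symm))
    (n : ℤ) : ((gen X).comap ⇑((sh X) ^ n)).comap ⇑(Phi u) = (gen X).comap ⇑((sh X) ^ n) := by
  rw [gen_comap, MeasurableSpace.comap_comp]
  have e : (fun x : ℤ → X => x n) ∘ ⇑(Phi u) = ⇑(u n) ∘ fun x : ℤ → X => x n := rfl
  rw [e, ← MeasurableSpace.comap_comp]
  congr 1
  apply le_antisymm
  · exact (h n).comap_le
  · intro s hs
    refine ⟨⇑(u n).symm ⁻¹' s, h' n hs, ?_⟩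
    ext x
    simp

end Pool.Agent.V5helper15.LE
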