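import Pool.Agent.V5helper15.LE.Grp

set_option autoImplicit false

/-!
# The group generated by a shift and polynomial sequences is nilpotent
-/

namespace Pool.Agent.V5helper15.LE

open Subgroup
open scoped commutatorElement

lemma lcs_le {M : Type*} [Group M] (σ : M) (S : Set M) (P : ℕ → Subgroup M)
    (hP : ∀ s t, ∀ x ∈ P s, ∀ y ∈ P t, ⁅x, y⁆ ∈ P (s + t)) (ha : Antitone P)
    (hn : ∀ s, ∀ y ∈ P s, σ * y * σ⁻¹ ∈ P s ∧ σ⁻¹ * y * σ ∈ P s)
    (hd : ∀ s, ∀ y ∈ P s, ⁅σ, y⁆ ∈ P (s + 1)) (hS : ∀ x ∈ S, x ∈ P 1) (n : ℕ) :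
    (closure (insert σ S)).lowerCentralSeries (n + 1) ≤ P (n + 2) := by
  have hc : ∀ s, ∀ x ∈ closure (insert σ S), ∀ y ∈ P s, x * y * x⁻¹ ∈ P s := by
    intro s
    apply conj_closure
    intro x hx y hy
    rcases hx with rfl | hx
    · exact hn s y hy
    · have key : ∀ x ∈ P 1, x * y * x⁻¹ ∈ P s := by
        intro x hx
        have e : x * y * x⁻¹ = ⁅x, y⁆ * y := by simp only [commutatorElement_def]; group
        rw [e]
        exact mul_mem (ha (by omega) (hP 1 s x hx y hy)) hy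
      refine ⟨key x (hS x hx), ?_⟩
      have := key x⁻¹ (inv_mem (hS x hx))
      rwa [inv_inv] at this
  induction n with
  | zero =>
    rw [Subgroup.lowerCentralSeries_succ, Subgroup.lowerCentralSeries_zero, Subgroup.commutator_le]
    apply comm_closure₂ _ _ _ (hc 2) (hc 2)
    intro x hx y hy
    rcases hx with rfl | hx <;> rcases hy with rfl | hy
    · rw [commutatorElement_self]
      exact one_mem _
    · exact hd 1 y (hS y hy)
    · rw [← commutatorElement_inv]
      exact inv_mem (hd 1 x (hS x hx))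
    · exact hP 1 1 x (hS x hx) y (hS y hy)
  | succ n ih =>
    rw [Subgroup.lowerCentralSeries_succ]
    refine (Subgroup.commutator_mono ih le_rfl).trans ?_
    rw [Subgroup.commutator_le]
    intro u hu x hx
    rw [← commutatorElement_inv]
    apply inv_mem
    revert x hx
    have h1 := comm_closure (insert σ S) (P (n + 2) : Set M) (P (n + 1 + 2)) (hc _) (by
      intro x hx u hu
      rcases hx with rfl | hx
      · exact hd (n + 2) u hu
      · have := hP 1 (n + 2) x (hS x hx) u hu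
        have e : 1 + (n + 2) = n + 1 + 2 := by ring
        rwa [e] at this)
    intro x hx
    exact h1 x hx u hu

/-- coordinatewise permutations -/
def Phi {X : Type*} : (ℤ → Equiv.Perm X) →* Equiv.Perm (ℤ → X) where
  toFun u := Equiv.piCongrRight u
  map_one' := by ext x n; rfl
  map_mul' u v := by ext x n; rfl

lemma Phi_apply {X : Type*} (u : ℤ → Equiv.Perm X) (x : ℤ → X) (n : ℤ) : Phi u x n = u n (x n) := rfl

/-- the shift -/
def sh (X : Type*) : Equiv.Perm (ℤ → X) where
  toFun x n := x (n + 1)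
  invFun x n := x (n - 1)
  left_inv x := by funext n; simp
  right_inv x := by funext n; simp

lemma sh_apply {X : Type*} (x : ℤ → X) (n : ℤ) : sh X x n = x (n + 1) := rfl
lemma sh_symm_apply {X : Type*} (x : ℤ → X) (n : ℤ) : (sh X)⁻¹ x n = x (n - 1) := rfl

lemma sh_pow_apply {X : Type*} (m : ℤ) (x : ℤ → X) (n : ℤ) : ((sh X) ^ m) x n = x (n + m) := by
  induction m generalizing x n with
  | zero => simp
  | succ m ih =>
    rw [zpow_add_one, Equiv.Perm.mul_apply, ih, sh_apply]
    congr 1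
    ring
  | pred m ih =>
    rw [zpow_sub_one, Equiv.Perm.mul_apply, ih, sh_symm_apply]
    congr 1
    ring

lemma sh_conj {X : Type*} (u : ℤ → Equiv.Perm X) (m : ℤ) :
    (sh X) ^ m * Phi u * ((sh X) ^ m)⁻¹ = Phi fun n => u (n + m) := by
  ext x n
  rw [Equiv.Perm.mul_apply, Equiv.Perm.mul_apply, sh_pow_apply, Phi_apply, Phi_apply, ← zpow_neg,
    sh_pow_apply]
  congr 2
  ring

/-- the filtration of a group of step at most `k` -/
def fil {G : Type*} [Group G] (D : ℕ) (j : ℕ) : Subgroup G :=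
  (⊤ : Subgroup G).lowerCentralSeries ((j - 1) / (D + 1))

lemma fil_filt {G : Type*} [Group G] (D : ℕ) : Filt (fil (G := G) D) := by
  constructor
  · intro i j h
    exact Subgroup.lowerCentralSeries_antitone _ (Nat.div_le_div_right (by omega))
  · intro i j
    refine (lcs_comm _ _).trans (Subgroup.lowerCentralSeries_antitone _ ?_)
    rw [← Nat.lt_succ_iff, Nat.div_lt_iff_lt_mul (by omega)]
    have h1 := Nat.lt_div_mul_add (a := i - 1) (b := D + 1) (by omega)
    have h2 := Nat.lt_div_mul_add (a := j - 1) (b := D + 1) (by omega)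
    have e : ((i - 1) / (D + 1) + (j - 1) / (D + 1) + 1).succ * (D + 1) =
        (i - 1) / (D + 1) * (D + 1) + (j - 1) / (D + 1) * (D + 1) + (D + 1) + (D + 1) := by
      rw [Nat.succ_eq_add_one]; ring
    rw [e]
    omega

lemma fil_top {G : Type*} [Group G] (D : ℕ) (t : G) : t ∈ fil (G := G) D (D + 1) := by
  have : (D + 1 - 1) / (D + 1) = 0 := Nat.div_eq_of_lt (by omega)
  unfold fil
  rw [this]
  exact mem_top t

lemma fil_bot {G : Type*} [Group G] (D k : ℕ) (h : (⊤ : Subgroup G).lowerCentralSeries k = ⊥) :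
    fil (G := G) D (k * (D + 1) + 1) = ⊥ := by
  unfold fil
  rw [Nat.add_sub_cancel, Nat.mul_div_cancel _ (Nat.succ_pos D)]
  exact h

/-- the group generated by the shift and coordinatewise polynomial sequences -/
theorem nil_main {X : Type*} (H : Subgroup (Equiv.Perm X)) (D k : ℕ) (hk : 1 ≤ k)
    (hH : H.lowerCentralSeries k = ⊥) (S : Set (Equiv.Perm (ℤ → X)))
    (hS : ∀ x ∈ S, ∃ u : ℤ → H, u ∈ Poly (fil D) 1 ∧ x = Phi fun n => (u n : Equiv.Perm X)) :
    (closure (insert (sh X) S)).lowerCentralSeries (k * (D + 1)) = ⊥ := by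
  have hF : Filt (fil (G := H) D) := fil_filt D
  have hH' : (⊤ : Subgroup H).lowerCentralSeries k = ⊥ := by
    have h1 := Subgroup.top_subtype_lowerCentralSeries H k
    rw [hH] at h1
    exact (Subgroup.map_eq_bot_iff_of_injective _ H.subtype_injective).1 h1
  obtain ⟨Ψ, hΨ⟩ : ∃ Ψ : (ℤ → H) →* Equiv.Perm (ℤ → X), ∀ u, Ψ u = Phi fun n => (u n : Equiv.Perm X) := by
    refine ⟨{ toFun := fun u => Phi fun n => (u n : Equiv.Perm X), map_one' := ?_, map_mul' := ?_ }, fun _ => rfl⟩
    · ext x n; rfl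
    · intro u v; ext x n; rfl
  have hconj : ∀ (u : ℤ → H) (m : ℤ), (sh X) ^ m * Ψ u * ((sh X) ^ m)⁻¹ = Ψ fun n => u (n + m) := by
    intro u m
    rw [hΨ, hΨ, sh_conj]
  have hmain := lcs_le (sh X) S (fun s => (Poly (fil (G := H) D) s).map Ψ) ?_ ?_ ?_ ?_ ?_ (k * (D + 1) - 1)
  · have hk1 : 1 ≤ k * (D + 1) := Nat.one_le_iff_ne_zero.2 (Nat.mul_ne_zero (by omega) (by omega))
    have e1 : k * (D + 1) - 1 + 1 = k * (D + 1) := by omega
    have e2 : k * (D + 1) - 1 + 2 = k * (D + 1) + 1 := by omega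
    rw [e1, e2, Poly_bot hF (fil_bot D k hH'), Subgroup.map_bot] at hmain
    exact le_bot_iff.1 hmain
  · rintro s t _ ⟨u, hu, rfl⟩ _ ⟨v, hv, rfl⟩
    exact ⟨⁅u, v⁆, Poly_comm hF s t hu hv, map_commutatorElement _ _ _⟩
  · intro s t h
    exact Subgroup.map_mono (Poly_anti hF h)
  · rintro s _ ⟨u, hu, rfl⟩
    constructor
    · refine ⟨fun n => u (n + 1), Poly_shift hu 1, ?_⟩
      have := hconj u 1
      rw [zpow_one] at this
      exact this.symm
    · refine ⟨fun n => u (n + (-1)), Poly_shift hu (-1), ?_⟩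
      have := hconj u (-1)
      rw [zpow_neg_one, inv_inv] at this
      exact this.symm
  · rintro s _ ⟨u, hu, rfl⟩
    refine ⟨fun n => u (n + 1) * (u n)⁻¹, Poly_deriv hF hu 1, ?_⟩
    have h1 := hconj u 1
    rw [zpow_one] at h1
    rw [commutatorElement_def, h1, ← map_inv, ← map_mul]
    rfl
  · intro x hx
    obtain ⟨u, hu, rfl⟩ := hS x hx
    exact ⟨u, hu, hΨ u⟩

end Pool.Agent.V5helper15.LE
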