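import Pool.Agent.V5helper15.LE.Main

set_option autoImplicit false

/-!
# From sets to bounded functions
-/

namespace Pool.Agent.V5helper15.LE

open MeasureTheory Filter Topology Subgroup ProbabilityTheory
open scoped ENNReal

/-- The set of the integers with the property `p` has a density (in the intervals `[-N, N]`). -/
def HasDensity (p : ℤ → Prop) : Prop := by
  classical
  exact ∃ L : ℝ, Tendsto (fun N : ℕ =>
    (((Finset.Icc (-(N : ℤ)) (N : ℤ)).filter p).card : ℝ) / (2 * N + 1)) atTop (𝓝 L)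

/-- If `σ` and `S_1, …, S_m` are invertible measure preserving maps which generate a nilpotent group of step at
most `c`, `σ` is a Bernoulli shift with the independent generator `𝒞`, the `S_j` leave all σ-algebras
`(σ^n)⁻¹ 𝒞` invariant, `R_j = S_j⁻¹ σ S_j`, and `A_1, …, A_m` are sets in `𝒞`, then for almost every `x` the set of
the integers `n` with `R_j^n σ^(-n) x ∈ A_j` for all `j` has a density. -/
def LinearSets (c : ℕ) : Prop :=
  ∀ (X : Type) (𝒞 : MeasurableSpace X) [MeasurableSpace X] (μ : Measure X) [IsProbabilityMeasure μ]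
    (m : ℕ) (σ : Equiv.Perm X) (S : Fin m → Equiv.Perm X), Measurable ⇑σ.symm →
    MeasurePreserving (⇑σ) μ μ → (∀ j, Measurable ⇑(S j).symm) →
    (∀ j, MeasurePreserving (⇑(S j)) μ μ) →
    (closure (insert σ (Set.range S))).lowerCentralSeries c = ⊥ → IsIndependentGenerator μ σ 𝒞 →
    (∀ j (n : ℤ), (𝒞.comap ⇑(σ ^ n)).comap ⇑(S j) = 𝒞.comap ⇑(σ ^ n)) →
    ∀ A : Fin m → Set X, (∀ j, MeasurableSet[𝒞] (A j)) →
    ∀ᵐ x ∂μ, HasDensity fun n => ∀ j, (((S j)⁻¹ * σ * S j) ^ n * (σ ^ n)⁻¹) x ∈ A j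

lemma avg_ind (p : ℤ → Prop) [DecidablePred p] (N : ℕ) :
    ((2 * N + 1 : ℕ) : ℂ)⁻¹ * ∑ n ∈ Finset.Icc (-(N : ℤ)) (N : ℤ), (if p n then (1 : ℂ) else 0) =
      (((((Finset.Icc (-(N : ℤ)) (N : ℤ)).filter p).card : ℝ) / (2 * N + 1) : ℝ) : ℂ) := by
  rw [Finset.sum_ite, Finset.sum_const_zero, add_zero, Finset.sum_const, nsmul_eq_mul, mul_one]
  push_cast
  rw [div_eq_mul_inv, mul_comm]

lemma conv_ind {p : ℤ → Prop} [DecidablePred p] : HasDensity p ↔ Conv fun n => if p n then 1 else 0 := by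
  unfold HasDensity Conv
  simp only [avg_ind]
  constructor
  · rintro ⟨L, hL⟩
    refine ⟨(L : ℂ), ?_⟩
    have h1 := (Complex.continuous_ofReal.tendsto L).comp hL
    refine h1.congr fun N => ?_
    simp only [Function.comp]
    congr!
  · rintro ⟨L, hL⟩
    refine ⟨L.re, ?_⟩
    have h1 := (Complex.continuous_re.tendsto L).comp hL
    refine h1.congr fun N => ?_
    simp only [Function.comp, Complex.ofReal_re]
    congr!

lemma Conv.const_mul {a : ℤ → ℂ} (h : Conv a) (c : ℂ) : Conv fun n => c * a n := by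
  obtain ⟨L, hL⟩ := h
  refine ⟨c * L, (hL.const_mul c).congr fun N => ?_⟩
  rw [← Finset.mul_sum]
  ring

lemma Conv.sum {ι : Type*} (s : Finset ι) (a : ι → ℤ → ℂ) (h : ∀ i ∈ s, Conv (a i)) :
    Conv fun n => ∑ i ∈ s, a i n := by
  classical
  induction s using Finset.induction_on with
  | empty =>
    refine ⟨0, tendsto_const_nhds.congr fun N => ?_⟩
    simp
  | insert i s hi ih =>
    obtain ⟨L, hL⟩ := h i (Finset.mem_insert_self i s)
    obtain ⟨K, hK⟩ := ih fun j hj => h j (Finset.mem_insert_of_mem hj)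
    refine ⟨L + K, (hL.add hK).congr fun N => ?_⟩
    rw [← mul_add, ← Finset.sum_add_distrib]
    congr 1
    apply Finset.sum_congr rfl
    intro n _
    change a i n + ∑ i ∈ s, a i n = ∑ i ∈ insert i s, a i n
    rw [Finset.sum_insert hi]

lemma conv_of_approx {a : ℤ → ℂ} (h : ∀ ε : ℝ, 0 < ε → ∃ b : ℤ → ℂ, Conv b ∧ ∀ n, ‖a n - b n‖ ≤ ε) :
    Conv a := by
  obtain ⟨A, hA⟩ : ∃ A : (ℤ → ℂ) → ℕ → ℂ, ∀ a N, A a N =
      ((2 * N + 1 : ℕ) : ℂ)⁻¹ * ∑ n ∈ Finset.Icc (-(N : ℤ)) (N : ℤ), a n := ⟨_, fun _ _ => rfl⟩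
  have hd : ∀ (a b : ℤ → ℂ) (ε : ℝ), (∀ n, ‖a n - b n‖ ≤ ε) → ∀ N, ‖A a N - A b N‖ ≤ ε := by
    intro a b ε hab N
    rw [hA, hA, ← mul_sub, ← Finset.sum_sub_distrib, norm_mul, norm_inv, Complex.norm_natCast]
    have h1 : ‖∑ n ∈ Finset.Icc (-(N : ℤ)) (N : ℤ), (a n - b n)‖ ≤ ((2 * N + 1 : ℕ) : ℝ) * ε := by
      refine (norm_sum_le _ _).trans ?_
      refine (Finset.sum_le_sum fun n _ => hab n).trans ?_
      rw [Finset.sum_const, nsmul_eq_mul, Int.card_Icc]
      apply le_of_eq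
      congr 2
      omega
    have h2 : (0 : ℝ) < ((2 * N + 1 : ℕ) : ℝ) := by positivity
    rw [inv_mul_le_iff₀ h2]
    exact h1
  have hc : CauchySeq (A a) := by
    rw [Metric.cauchySeq_iff]
    intro ε hε
    obtain ⟨b, ⟨L, hL⟩, hb⟩ := h (ε / 4) (by linarith)
    have h1 : CauchySeq (A b) := by
      have h2 : Tendsto (A b) atTop (𝓝 L) := hL.congr fun N => (hA b N).symm
      exact h2.cauchySeq
    obtain ⟨N0, hN0⟩ := Metric.cauchySeq_iff.1 h1 (ε / 4) (by linarith)
    refine ⟨N0, fun N hN M hM => ?_⟩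
    have h2 := hN0 N hN M hM
    have h3 := hd a b _ hb N
    have h4 := hd a b _ hb M
    rw [dist_eq_norm] at h2 ⊢
    have e : A a N - A a M = (A a N - A b N) + (A b N - A b M) - (A a M - A b M) := by ring
    rw [e]
    calc ‖(A a N - A b N) + (A b N - A b M) - (A a M - A b M)‖
        ≤ ‖(A a N - A b N) + (A b N - A b M)‖ + ‖A a M - A b M‖ := norm_sub_le _ _
      _ ≤ ‖A a N - A b N‖ + ‖A b N - A b M‖ + ‖A a M - A b M‖ := by
          gcongr; exact norm_add_le _ _
      _ < ε := by linarith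
  obtain ⟨L, hL⟩ := cauchySeq_tendsto_of_complete hc
  exact ⟨L, hL.congr fun N => hA a N⟩

lemma prod_diff {ι : Type*} (s : Finset ι) (f g : ι → ℂ) (K δ : ℝ) (hK : 1 ≤ K) (hδ : 0 ≤ δ)
    (hf : ∀ i ∈ s, ‖f i‖ ≤ K) (hg : ∀ i ∈ s, ‖g i‖ ≤ K) (hfg : ∀ i ∈ s, ‖f i - g i‖ ≤ δ) :
    ‖∏ i ∈ s, f i - ∏ i ∈ s, g i‖ ≤ s.card * K ^ s.card * δ := by
  classical
  induction s using Finset.induction_on with
  | empty => simp
  | insert a s ha ih =>
    have h1 := ih (fun i hi => hf i (Finset.mem_insert_of_mem hi))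
      (fun i hi => hg i (Finset.mem_insert_of_mem hi)) fun i hi => hfg i (Finset.mem_insert_of_mem hi)
    rw [Finset.prod_insert ha, Finset.prod_insert ha, Finset.card_insert_of_notMem ha]
    have h2 : ‖∏ i ∈ s, g i‖ ≤ K ^ s.card := by
      rw [norm_prod, ← Finset.prod_const]
      exact Finset.prod_le_prod (fun i _ => norm_nonneg _) fun i hi => hg i (Finset.mem_insert_of_mem hi)
    have h3 := hf a (Finset.mem_insert_self a s)
    have h4 := hfg a (Finset.mem_insert_self a s)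
    have hKs : 1 ≤ K ^ s.card := one_le_pow₀ hK
    have e : f a * ∏ i ∈ s, f i - g a * ∏ i ∈ s, g i =
        f a * (∏ i ∈ s, f i - ∏ i ∈ s, g i) + (f a - g a) * ∏ i ∈ s, g i := by ring
    rw [e]
    calc ‖f a * (∏ i ∈ s, f i - ∏ i ∈ s, g i) + (f a - g a) * ∏ i ∈ s, g i‖
        ≤ ‖f a‖ * ‖∏ i ∈ s, f i - ∏ i ∈ s, g i‖ + ‖f a - g a‖ * ‖∏ i ∈ s, g i‖ := by
          refine (norm_add_le _ _).trans ?_
          rw [norm_mul, norm_mul]
      _ ≤ K * (s.card * K ^ s.card * δ) + δ * K ^ s.card := by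
          gcongr
      _ ≤ K * (s.card * K ^ s.card * δ) + K * (K ^ s.card * δ) := by
          have : δ * K ^ s.card ≤ K * (K ^ s.card * δ) := by
            have h5 : 0 ≤ K ^ s.card * δ := by positivity
            nlinarith
          linarith
      _ = ((s.card + 1 : ℕ) : ℝ) * K ^ (s.card + 1) * δ := by
          push_cast
          ring

lemma floor_err (r : ℝ) (q : ℕ) : |r - (⌊r * (q + 1)⌋ : ℝ) / (q + 1)| ≤ 1 / (q + 1) := by
  have hq : (0 : ℝ) < q + 1 := by positivity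
  have h1 := Int.floor_le (r * (q + 1))
  have h2 := (Int.lt_floor_add_one (r * (q + 1))).le
  rw [abs_le]
  constructor
  · rw [neg_le_sub_iff_le_add, div_le_iff₀ hq]
    have : (r + 1 / (q + 1)) * (q + 1) = r * (q + 1) + 1 := by field_simp
    rw [this]
    linarith
  · rw [sub_le_iff_le_add, ← add_div, le_div_iff₀ hq]
    linarith

lemma meas_kappa {X : Type} [MeasurableSpace X] {f : X → ℂ} (hf : Measurable f) (q : ℕ) (v : ℤ × ℤ) :
    MeasurableSet ((fun x => (⌊(f x).re * ((q : ℝ) + 1)⌋, ⌊(f x).im * ((q : ℝ) + 1)⌋)) ⁻¹' {v}) := by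
  have h1 : Measurable fun x => (f x).re * ((q : ℝ) + 1) :=
    (Complex.measurable_re.comp hf).mul_const _
  have h2 : Measurable fun x => (f x).im * ((q : ℝ) + 1) :=
    (Complex.measurable_im.comp hf).mul_const _
  exact (h1.floor.prodMk h2.floor) (measurableSet_singleton v)

lemma meas_ind {X : Type} [MeasurableSpace X] {A : Set X} (hA : MeasurableSet A) :
    Measurable (A.indicator fun _ => (1 : ℂ)) := measurable_const.indicator hA

theorem lin_of_sets (c : ℕ) (h : LinearSets c) : LinearCase c := by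
  classical
  intro X 𝒞 mX μ _ m σ S hσs hσ hSs hS hnil hgen hinv f hf hfb
  choose C hC using hfb
  obtain ⟨K, hK⟩ : ∃ K : ℝ, K = 3 + ∑ j, |C j| := ⟨_, rfl⟩
  have hKj : ∀ j x, ‖f j x‖ ≤ K - 3 := by
    intro j x
    rw [hK, add_sub_cancel_left]
    exact (hC j x).trans ((le_abs_self _).trans
      (Finset.single_le_sum (f := fun j => |C j|) (fun _ _ => abs_nonneg _) (Finset.mem_univ j)))
  have hK3 : 3 ≤ K := by
    rw [hK]
    have : 0 ≤ ∑ j, |C j| := Finset.sum_nonneg fun _ _ => abs_nonneg _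
    linarith
  obtain ⟨κ, hκ⟩ : ∃ κ : ℕ → Fin m → X → ℤ × ℤ, ∀ q j x, κ q j x =
      (⌊(f j x).re * (q + 1)⌋, ⌊(f j x).im * (q + 1)⌋) := ⟨_, fun _ _ _ => rfl⟩
  obtain ⟨val, hval⟩ : ∃ val : ℕ → ℤ × ℤ → ℂ, ∀ q v, val q v =
      (((v.1 : ℝ) / (q + 1) : ℝ) : ℂ) + (((v.2 : ℝ) / (q + 1) : ℝ) : ℂ) * Complex.I := ⟨_, fun _ _ => rfl⟩
  have herr : ∀ q j x, ‖f j x - val q (κ q j x)‖ ≤ 2 / (q + 1) := by
    intro q j x
    have e : f j x - val q (κ q j x) =
        (((f j x).re - (⌊(f j x).re * (q + 1)⌋ : ℝ) / (q + 1) : ℝ) : ℂ) +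
        (((f j x).im - (⌊(f j x).im * (q + 1)⌋ : ℝ) / (q + 1) : ℝ) : ℂ) * Complex.I := by
      have e0 : f j x - val q (κ q j x) =
          ((((f j x).re : ℝ) : ℂ) + (((f j x).im : ℝ) : ℂ) * Complex.I) - val q (κ q j x) := by
        rw [Complex.re_add_im]
      rw [e0, hval, hκ]
      push_cast
      ring
    rw [e]
    refine (norm_add_le _ _).trans ?_
    rw [norm_mul, Complex.norm_I, mul_one, Complex.norm_real, Complex.norm_real, Real.norm_eq_abs,
      Real.norm_eq_abs]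
    have h1 := floor_err (f j x).re q
    have h2 := floor_err (f j x).im q
    have e2 : (2 : ℝ) / (q + 1) = 1 / (q + 1) + 1 / (q + 1) := by ring
    rw [e2]
    exact add_le_add h1 h2
  have hmeas : ∀ q j v, MeasurableSet[𝒞] (κ q j ⁻¹' {v}) := by
    intro q j v
    have e : κ q j = fun x => (⌊(f j x).re * ((q : ℝ) + 1)⌋, ⌊(f j x).im * ((q : ℝ) + 1)⌋) :=
      funext fun x => hκ q j x
    rw [e]
    exact @meas_kappa X 𝒞 (f j) (hf j) q v
  have hae : ∀ᵐ x ∂μ, ∀ (q : ℕ) (v : Fin m → ℤ × ℤ), HasDensity fun n =>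
      ∀ j, (((S j)⁻¹ * σ * S j) ^ n * (σ ^ n)⁻¹) x ∈ κ q j ⁻¹' {v j} := by
    rw [ae_all_iff]
    intro q
    rw [ae_all_iff]
    intro v
    exact h X 𝒞 μ m σ S hσs hσ hSs hS hnil hgen hinv _ fun j => hmeas q j (v j)
  filter_upwards [hae] with x hx
  obtain ⟨y, hy⟩ : ∃ y : ℤ → Fin m → X, ∀ n j, y n j = (((S j)⁻¹ * σ * S j) ^ n * (σ ^ n)⁻¹) x :=
    ⟨_, fun _ _ => rfl⟩
  simp only [← hy] at hx ⊢
  apply conv_of_approx
  intro ε hε
  obtain ⟨q, hq⟩ : ∃ q : ℕ, (m : ℝ) * K ^ m * (2 / (q + 1)) ≤ ε := by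
    obtain ⟨q, hq⟩ := exists_nat_gt ((m : ℝ) * K ^ m * 2 / ε)
    refine ⟨q, ?_⟩
    rw [← mul_div_assoc, div_le_iff₀ (by positivity)]
    rw [div_lt_iff₀ hε] at hq
    nlinarith
  refine ⟨fun n => ∏ j, val q (κ q j (y n j)), ?_, ?_⟩
  · obtain ⟨M, hM⟩ : ∃ M : ℤ, ∀ j x, κ q j x ∈ (Finset.Icc (-M) M ×ˢ Finset.Icc (-M) M) := by
      refine ⟨⌈K * (q + 1)⌉ + 1, fun j x => ?_⟩
      have hb : ∀ r : ℝ, |r| ≤ K → ⌊r * (q + 1)⌋ ∈
          Finset.Icc (-(⌈K * ((q : ℝ) + 1)⌉ + 1)) (⌈K * ((q : ℝ) + 1)⌉ + 1) := by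
        intro r hr
        rw [abs_le] at hr
        have hq1 : (0 : ℝ) < q + 1 := by positivity
        have h1 := Int.le_ceil (K * ((q : ℝ) + 1))
        have h2 : -(K * ((q : ℝ) + 1)) ≤ r * (q + 1) := by nlinarith [hr.1]
        have h3 : r * (q + 1) ≤ K * ((q : ℝ) + 1) := by nlinarith [hr.2]
        rw [Finset.mem_Icc]
        constructor
        · rw [Int.le_floor]
          push_cast
          linarith
        · have h4 := Int.floor_le (r * ((q : ℝ) + 1))
          have h5 : ((⌊r * ((q : ℝ) + 1)⌋ : ℤ) : ℝ) ≤ ((⌈K * ((q : ℝ) + 1)⌉ + 1 : ℤ) : ℝ) := by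
            push_cast
            linarith
          exact_mod_cast h5
      rw [Finset.mem_product, hκ]
      have h1 := hKj j x
      exact ⟨hb _ (by linarith [Complex.abs_re_le_norm (f j x)]),
        hb _ (by linarith [Complex.abs_im_le_norm (f j x)])⟩
    have e : (fun n => ∏ j, val q (κ q j (y n j))) = fun n =>
        ∑ v ∈ Fintype.piFinset fun _ : Fin m => (Finset.Icc (-M) M ×ˢ Finset.Icc (-M) M),
          (∏ j, val q (v j)) * (if ∀ j, y n j ∈ κ q j ⁻¹' {v j} then 1 else 0) := by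
      funext n
      have h1 : ∀ j, val q (κ q j (y n j)) = ∑ v ∈ (Finset.Icc (-M) M ×ˢ Finset.Icc (-M) M),
          val q v * (if y n j ∈ κ q j ⁻¹' {v} then 1 else 0) := by
        intro j
        rw [Finset.sum_eq_single (κ q j (y n j))]
        · simp
        · intro v _ hv
          rw [if_neg, mul_zero]
          intro h2
          exact hv (Set.mem_singleton_iff.1 h2).symm
        · intro h2
          exact absurd (hM j (y n j)) h2
      rw [Finset.prod_congr rfl fun j _ => h1 j, Finset.prod_univ_sum]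
      apply Finset.sum_congr rfl
      intro v _
      rw [Finset.prod_mul_distrib]
      congr 1
      by_cases h2 : ∀ j, y n j ∈ κ q j ⁻¹' {v j}
      · rw [if_pos h2]
        apply Finset.prod_eq_one
        intro j _
        rw [if_pos (h2 j)]
      · rw [if_neg h2]
        push Not at h2
        obtain ⟨j, hj⟩ := h2
        apply Finset.prod_eq_zero (Finset.mem_univ j)
        rw [if_neg hj]
    rw [e]
    apply Conv.sum
    intro v _
    exact Conv.const_mul (conv_ind.1 (hx q v)) _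
  · intro n
    have h1 := prod_diff Finset.univ (fun j => f j (y n j)) (fun j => val q (κ q j (y n j))) K
      (2 / (q + 1)) (by linarith) (by positivity) (fun j _ => by linarith [hKj j (y n j)])
      (fun j _ => by
        have h2 := herr q j (y n j)
        have h3 := hKj j (y n j)
        have h4 : (2 : ℝ) / (q + 1) ≤ 2 := by
          rw [div_le_iff₀ (by positivity)]
          have : (0 : ℝ) ≤ q := by positivity
          linarith
        have h5 : ‖val q (κ q j (y n j))‖ ≤ ‖f j (y n j)‖ + ‖f j (y n j) - val q (κ q j (y n j))‖ := by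
          have e : val q (κ q j (y n j)) = f j (y n j) - (f j (y n j) - val q (κ q j (y n j))) := by ring
          rw [e]
          refine (norm_sub_le _ _).trans (le_of_eq ?_)
          rw [← e]
        linarith)
      (fun j _ => herr q j (y n j))
    rw [Finset.card_univ, Fintype.card_fin] at h1
    exact h1.trans hq

theorem sets_of_lin (c : ℕ) (h : LinearCase c) : LinearSets c := by
  classical
  intro X 𝒞 mX μ _ m σ S hσs hσ hSs hS hnil hgen hinv A hA
  have h1 := h X 𝒞 μ m σ S hσs hσ hSs hS hnil hgen hinv (fun j => (A j).indicator fun _ => 1)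
    (fun j => @meas_ind X 𝒞 (A j) (hA j)) (fun j => ⟨1, fun x => by
      by_cases hx : x ∈ A j
      · rw [Set.indicator_of_mem hx]; simp
      · rw [Set.indicator_of_notMem hx]; simp⟩)
  filter_upwards [h1] with x hx
  rw [conv_ind]
  convert hx using 2 with n
  by_cases h2 : ∀ j, (((S j)⁻¹ * σ * S j) ^ n * (σ ^ n)⁻¹) x ∈ A j
  · rw [if_pos h2]
    symm
    apply Finset.prod_eq_one
    intro j _
    rw [Set.indicator_of_mem (h2 j)]
  · rw [if_neg h2]
    push Not at h2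
    obtain ⟨j, hj⟩ := h2
    symm
    apply Finset.prod_eq_zero (Finset.mem_univ j)
    rw [Set.indicator_of_notMem hj]

end Pool.Agent.V5helper15.LE
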